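import Mathlib

/-!
# Disjoint branchings (Edmonds, proof of Lovász)

`V` is a finite set of vertices, `A` a set of arcs with tails `tl` and heads `hd`, `r` a root.
If at least `k` arcs leave every nonempty set of vertices that does not contain the root, then there
are `k` disjoint sets of arcs through each of which every vertex reaches the root.
-/

set_option autoImplicit false

namespace Pool.Agent.R483.TP

open Finset

variable {V A : Type*} [DecidableEq V] [DecidableEq A] (tl hd : A → V) (r : V)

/-- the number of the arcs of `S` that leave `X` -/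
def out (S : Finset A) (X : Finset V) : ℕ := (S.filter fun a => tl a ∈ X ∧ hd a ∉ X).card

/-- `v` reaches the root through arcs of `F` -/
def Reach (F : Finset A) (v : V) : Prop :=
  Relation.ReflTransGen (fun x y => ∃ a ∈ F, tl a = x ∧ hd a = y) v r

lemma Reach.mono {F F' : Finset A} (h : F ⊆ F') {v : V} (hv : Reach tl hd r F v) :
    Reach tl hd r F' v := by
  induction hv using Relation.ReflTransGen.head_induction_on with
  | refl => exact Relation.ReflTransGen.refl
  | head h1 _ ih =>
    obtain ⟨a, ha, h2⟩ := h1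
    exact Relation.ReflTransGen.head ⟨a, h ha, h2⟩ ih

lemma out_submod (S : Finset A) (X Y : Finset V) :
    out tl hd S (X ∩ Y) + out tl hd S (X ∪ Y) ≤ out tl hd S X + out tl hd S Y := by
  unfold out
  simp only [card_filter, ← sum_add_distrib]
  refine sum_le_sum fun a _ => ?_
  simp only [mem_inter, mem_union]
  by_cases h1 : tl a ∈ X <;> by_cases h2 : tl a ∈ Y <;> by_cases h3 : hd a ∈ X <;>
    by_cases h4 : hd a ∈ Y <;> simp [h1, h2, h3, h4]

lemma out_insert_ge {S F : Finset A} {a : A} {X : Finset V} :
    out tl hd (S \ F) X ≤ out tl hd (S \ insert a F) X + 1 := by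
  unfold out
  have : (S \ F).filter (fun a => tl a ∈ X ∧ hd a ∉ X) ⊆
      insert a ((S \ insert a F).filter fun a => tl a ∈ X ∧ hd a ∉ X) := by
    intro b hb
    simp only [mem_filter, mem_sdiff, mem_insert] at hb ⊢
    by_cases hba : b = a
    · exact Or.inl hba
    · exact Or.inr ⟨⟨hb.1.1, fun h => h.elim hba hb.1.2⟩, hb.2⟩
  exact (card_le_card this).trans (card_insert_le _ _)

lemma out_insert_eq {S F : Finset A} {a : A} {X : Finset V} (h : ¬ (tl a ∈ X ∧ hd a ∉ X)) :
    out tl hd (S \ insert a F) X = out tl hd (S \ F) X := by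
  unfold out
  congr 1
  ext b
  simp only [mem_filter, mem_sdiff, mem_insert, not_or]
  constructor
  · rintro ⟨⟨h1, -, h2⟩, h3⟩
    exact ⟨⟨h1, h2⟩, h3⟩
  · rintro ⟨⟨h1, h2⟩, h3⟩
    refine ⟨⟨h1, ?_, h2⟩, h3⟩
    rintro rfl
    exact h h3

variable [Fintype V]

/-- growing one branching -/
lemma grow (k : ℕ) (S : Finset A)
    (hS : ∀ X : Finset V, X.Nonempty → r ∉ X → k + 1 ≤ out tl hd S X) :
    ∀ (m : ℕ) (U : Finset V) (F : Finset A), r ∈ U → F ⊆ S → (∀ a ∈ F, tl a ∈ U) →
      (∀ v ∈ U, Reach tl hd r F v) →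
      (∀ X : Finset V, X.Nonempty → r ∉ X → k ≤ out tl hd (S \ F) X) →
      (univ \ U).card = m →
      ∃ F' ⊆ S, (∀ v, Reach tl hd r F' v) ∧
        ∀ X : Finset V, X.Nonempty → r ∉ X → k ≤ out tl hd (S \ F') X := by
  intro m
  induction m with
  | zero =>
    intro U F _ hF _ hreach hout hU
    refine ⟨F, hF, fun v => hreach v ?_, hout⟩
    by_contra hv
    have : v ∈ univ \ U := mem_sdiff.2 ⟨mem_univ _, hv⟩
    rw [card_eq_zero.1 hU] at this
    exact absurd this (notMem_empty v)
  | succ m ih =>
    intro U F hrU hF htl hreach hout hU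
    -- a good arc
    have key : ∃ a ∈ S \ F, tl a ∉ U ∧ hd a ∈ U ∧
        ∀ X : Finset V, X.Nonempty → r ∉ X → tl a ∈ X → hd a ∉ X →
          k < out tl hd (S \ F) X := by
      have hbig : ∀ X : Finset V, X.Nonempty → (∀ v ∈ X, v ∉ U) →
          k + 1 ≤ out tl hd (S \ F) X := by
        intro X hX hXU
        refine (hS X hX fun h => hXU r h hrU).trans ?_
        unfold out
        refine card_le_card fun a ha => ?_
        simp only [mem_filter, mem_sdiff] at ha ⊢
        exact ⟨⟨ha.1, fun haF => hXU _ ha.2.1 (htl a haF)⟩, ha.2⟩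
      by_cases hT : ∃ X : Finset V, r ∉ X ∧ (∃ v ∈ X, v ∉ U) ∧ out tl hd (S \ F) X ≤ k
      · -- a minimal tight set
        obtain ⟨X, ⟨hX1, ⟨v, hvX, hvU⟩, hX3⟩, hmin⟩ := WellFounded.has_min
          (wellFounded_lt (α := Finset V))
          {X : Finset V | r ∉ X ∧ (∃ v ∈ X, v ∉ U) ∧ out tl hd (S \ F) X ≤ k} hT
        have h1 := hbig (X \ U) ⟨v, mem_sdiff.2 ⟨hvX, hvU⟩⟩ (fun w hw => (mem_sdiff.1 hw).2)
        obtain ⟨a, ha, haX⟩ : ∃ a ∈ (S \ F).filter (fun a => tl a ∈ X \ U ∧ hd a ∉ X \ U),
            a ∉ (S \ F).filter (fun a => tl a ∈ X ∧ hd a ∉ X) := by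
          by_contra hcon
          push Not at hcon
          have := card_le_card (show (S \ F).filter (fun a => tl a ∈ X \ U ∧ hd a ∉ X \ U) ⊆
            (S \ F).filter (fun a => tl a ∈ X ∧ hd a ∉ X) from fun a ha => hcon a ha)
          unfold out at h1 hX3
          omega
        rw [mem_filter] at ha haX
        obtain ⟨haS, ha1, ha2⟩ := ha
        rw [mem_sdiff] at ha1
        have ha3 : hd a ∈ X := by
          by_contra h
          exact haX ⟨haS, ha1.1, h⟩
        have ha4 : hd a ∈ U := by
          by_contra h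
          exact ha2 (mem_sdiff.2 ⟨ha3, h⟩)
        refine ⟨a, haS, ha1.2, ha4, fun Y hY hrY htY hhY => ?_⟩
        by_contra hcon
        rw [not_lt] at hcon
        have h5 := out_submod tl hd (S \ F) X Y
        have h6 := hout (X ∪ Y) ⟨v, mem_union_left _ hvX⟩ (by
          rw [mem_union]
          exact fun h => h.elim hX1 hrY)
        refine hmin (X ∩ Y) ⟨fun h => hX1 (mem_inter.1 h).1,
          ⟨tl a, mem_inter.2 ⟨ha1.1, htY⟩, ha1.2⟩, by omega⟩ ?_
        refine (ssubset_iff_of_subset inter_subset_left).2 ⟨hd a, ha3, fun h => hhY ?_⟩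
        exact (mem_inter.1 h).2
      · push Not at hT
        have hne : (univ \ U).Nonempty := card_pos.1 (by omega)
        have h1 := hbig (univ \ U) hne (fun w hw => (mem_sdiff.1 hw).2)
        have h2 : 0 < out tl hd (S \ F) (univ \ U) := by omega
        unfold out at h2
        obtain ⟨a, ha⟩ := card_pos.1 h2
        rw [mem_filter, mem_sdiff, mem_sdiff] at ha
        obtain ⟨haS, ⟨-, ha1⟩, ha2⟩ := ha
        refine ⟨a, mem_sdiff.2 haS, ha1, ?_, fun X _ hrX htX _ => hT X hrX ⟨_, htX, ha1⟩⟩
        by_contra h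
        exact ha2 (mem_sdiff.2 ⟨mem_univ _, h⟩)
    obtain ⟨a, haS, ha1, ha2, ha3⟩ := key
    refine ih (insert (tl a) U) (insert a F) (mem_insert_of_mem hrU) ?_ ?_ ?_ ?_ ?_
    · intro b hb
      rcases mem_insert.1 hb with rfl | hb
      · exact (mem_sdiff.1 haS).1
      · exact hF hb
    · intro b hb
      rcases mem_insert.1 hb with rfl | hb
      · exact mem_insert_self _ _
      · exact mem_insert_of_mem (htl b hb)
    · intro v hv
      rcases mem_insert.1 hv with rfl | hv
      · exact Relation.ReflTransGen.head ⟨a, mem_insert_self _ _, rfl, rfl⟩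
          (Reach.mono tl hd r (subset_insert _ _) (hreach _ ha2))
      · exact Reach.mono tl hd r (subset_insert _ _) (hreach _ hv)
    · intro X hX hrX
      by_cases h : tl a ∈ X ∧ hd a ∉ X
      · have h1 := ha3 X hX hrX h.1 h.2
        have h2 := out_insert_ge tl hd (S := S) (F := F) (a := a) (X := X)
        omega
      · rw [out_insert_eq tl hd h]
        exact hout X hX hrX
    · have h1 : univ \ U = insert (tl a) (univ \ insert (tl a) U) := by
        ext v
        simp only [mem_sdiff, mem_univ, true_and, mem_insert, not_or]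
        constructor
        · intro hv
          by_cases h : v = tl a
          · exact Or.inl h
          · exact Or.inr ⟨h, hv⟩
        · rintro (rfl | ⟨-, h⟩)
          · exact ha1
          · exact h
      rw [h1, card_insert_of_notMem (by simp)] at hU
      omega

/-- **Edmonds' theorem on disjoint branchings.** -/
theorem edmonds : ∀ (k : ℕ) (S : Finset A),
    (∀ X : Finset V, X.Nonempty → r ∉ X → k ≤ out tl hd S X) →
    ∃ F : Fin k → Finset A, (∀ i, F i ⊆ S) ∧ (∀ i j, i ≠ j → Disjoint (F i) (F j)) ∧
      ∀ i v, Reach tl hd r (F i) v := by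
  intro k
  induction k with
  | zero =>
    intro S _
    exact ⟨fun i => i.elim0, fun i => i.elim0, fun i => i.elim0, fun i => i.elim0⟩
  | succ k ih =>
    intro S hS
    obtain ⟨F', hF', hreach, hout⟩ := grow tl hd r k S hS _ {r} ∅ (mem_singleton_self _)
      (empty_subset _) (fun a ha => absurd ha (notMem_empty a)) (fun v hv => by
        rw [mem_singleton.1 hv]
        exact Relation.ReflTransGen.refl) (fun X hX hrX => by
        rw [sdiff_empty]
        exact (Nat.le_succ k).trans (hS X hX hrX)) rfl
    obtain ⟨F, hF1, hF2, hF3⟩ := ih (S \ F') hout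
    refine ⟨Fin.cons F' F, ?_, ?_, ?_⟩
    · intro i
      refine Fin.cases ?_ (fun i => ?_) i
      · exact hF'
      · rw [Fin.cons_succ]
        exact (hF1 i).trans sdiff_subset
    · intro i j
      refine Fin.cases ?_ (fun i => ?_) i <;> refine Fin.cases ?_ (fun j => ?_) j
      · intro h
        exact absurd rfl h
      · intro _
        rw [Fin.cons_zero, Fin.cons_succ]
        exact disjoint_of_subset_right (hF1 j) disjoint_sdiff
      · intro _
        rw [Fin.cons_zero, Fin.cons_succ]
        exact disjoint_of_subset_left (hF1 i) sdiff_disjoint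
      · intro h
        rw [Fin.cons_succ, Fin.cons_succ]
        exact hF2 i j fun h' => h (by rw [h'])
    · intro i
      refine Fin.cases ?_ (fun i => ?_) i
      · rw [Fin.cons_zero]
        exact hreach
      · rw [Fin.cons_succ]
        exact hF3 i

end Pool.Agent.R483.TP
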