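import Pool.Agent.R483.TP.Arb

/-!
# Covering regular graphs by forests
-/

set_option autoImplicit false

namespace Pool.Agent.R483.TP

open Finset

/-- twice the number of the edges of a set is at most the sum of degrees over its vertices -/
lemma two_mul_card_le {N d : ℕ} (K : SimpleGraph (Fin N)) [DecidableRel K.Adj]
    (hK : ∀ v, K.degree v = d) (s : Finset (Sym2 (Fin N))) (hs : ∀ e ∈ s, e ∈ K.edgeSet)
    (W : Finset (Fin N)) (hW : ∀ e ∈ s, ∀ v ∈ e, v ∈ W) :
    2 * s.card ≤ W.card * d := by
  classical
  have h3 := sum_card_bipartiteAbove_eq_sum_card_bipartiteBelow (s := W) (t := s)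
    (fun (v : Fin N) (e : Sym2 (Fin N)) => v ∈ e)
  have h4 : ∀ v ∈ W, (s.bipartiteAbove (fun (v : Fin N) (e : Sym2 (Fin N)) => v ∈ e) v).card ≤ d := by
    intro v _
    rw [← hK v, ← K.card_incidenceFinset_eq_degree v]
    refine card_le_card fun e he => ?_
    rw [mem_bipartiteAbove] at he
    rw [SimpleGraph.mem_incidenceFinset]
    exact ⟨hs e he.1, he.2⟩
  have h5 : ∀ e ∈ s, 2 ≤ (W.bipartiteBelow (fun (v : Fin N) (e : Sym2 (Fin N)) => v ∈ e) e).card := by
    intro e he
    have h6 := hs e he
    have h7 := hW e he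
    induction e using Sym2.ind with
    | _ a b =>
      rw [SimpleGraph.mem_edgeSet] at h6
      rw [← card_pair h6.ne]
      refine card_le_card fun v hv => ?_
      rw [mem_bipartiteBelow]
      rw [mem_insert, mem_singleton] at hv
      have hv' : v ∈ s(a, b) := Sym2.mem_iff.2 hv
      exact ⟨h7 v hv', hv'⟩
  calc 2 * s.card = ∑ _e ∈ s, 2 := by rw [sum_const, smul_eq_mul, mul_comm]
    _ ≤ _ := sum_le_sum h5
    _ = _ := h3.symm
    _ ≤ ∑ _v ∈ W, d := sum_le_sum h4
    _ = W.card * d := by rw [sum_const, smul_eq_mul]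

/-- each edge is assigned to a slot of one of its ends, `k` slots for each vertex -/
lemma exists_slot {N d k : ℕ} (K : SimpleGraph (Fin N)) [DecidableRel K.Adj]
    (hK : ∀ v, K.degree v = d) (hd : d ≤ 2 * k) :
    ∃ χ : {e : Sym2 (Fin N) // e ∈ K.edgeSet} → Fin N × Fin k, Function.Injective χ ∧
      ∀ e, (χ e).1 ∈ e.1 := by
  classical
  have hall : ∀ s : Finset {e : Sym2 (Fin N) // e ∈ K.edgeSet},
      s.card ≤ (s.biUnion fun e => (univ.filter fun x : Fin N × Fin k => x.1 ∈ e.1)).card := by
    intro s
    set W : Finset (Fin N) := univ.filter fun v => ∃ e ∈ s, v ∈ e.1 with hW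
    have h1 : (s.biUnion fun e => (univ.filter fun x : Fin N × Fin k => x.1 ∈ e.1)) =
        W ×ˢ univ := by
      ext x
      rw [mem_biUnion, mem_product, hW, mem_filter]
      constructor
      · rintro ⟨e, he, hx⟩
        rw [mem_filter] at hx
        exact ⟨⟨mem_univ _, e, he, hx.2⟩, mem_univ _⟩
      · rintro ⟨⟨-, e, he, hx⟩, -⟩
        exact ⟨e, he, mem_filter.2 ⟨mem_univ _, hx⟩⟩
    rw [h1, card_product, card_univ, Fintype.card_fin]
    have h2 := two_mul_card_le K hK (s.map (Function.Embedding.subtype _)) (by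
      intro e he
      rw [mem_map] at he
      obtain ⟨e', _, rfl⟩ := he
      exact e'.2) W (by
      intro e he v hv
      rw [mem_map] at he
      obtain ⟨e', he', rfl⟩ := he
      rw [hW, mem_filter]
      exact ⟨mem_univ _, e', he', hv⟩)
    rw [card_map] at h2
    have h3 : W.card * d ≤ W.card * (2 * k) := Nat.mul_le_mul_left _ hd
    have h4 : W.card * (2 * k) = 2 * (W.card * k) := by ring
    omega
  obtain ⟨χ, h1, h2⟩ := (all_card_le_biUnion_card_iff_exists_injective _).1 hall
  exact ⟨χ, h1, fun e => (mem_filter.1 (h2 e)).2⟩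

/-- **Covering by forests.** A regular graph of degree at most `2 k - 1` is a union of `k`
forests. -/
lemma cover_aux {N d k : ℕ} (K : SimpleGraph (Fin N)) [DecidableRel K.Adj]
    (hK : ∀ v, K.degree v = d) (hd : d + 1 ≤ 2 * k) :
    ∃ T : Fin k → SimpleGraph (Fin N), (∀ i, (T i).IsAcyclic) ∧
      ∀ u v, K.Adj u v ↔ ∃ i, (T i).Adj u v := by
  classical
  obtain ⟨χ, hχ, hχm⟩ := exists_slot K hK (show d ≤ 2 * k by omega)
  -- the head of a slot
  have hoth : ∀ e, ∃ w, e.1 = s((χ e).1, w) := fun e => Sym2.mem_iff_exists.1 (hχm e)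
  choose oth hoth using hoth
  set tl : Fin N × Fin k → Option (Fin N) := fun x => some x.1 with htl
  set hd' : Fin N × Fin k → Option (Fin N) := fun x =>
    if h : ∃ e, χ e = x then some (oth h.choose) else none with hhd
  have hdχ : ∀ e, hd' (χ e) = some (oth e) := by
    intro e
    have h : ∃ e', χ e' = χ e := ⟨e, rfl⟩
    have h1 : hd' (χ e) = some (oth h.choose) := by
      rw [hhd]
      exact dif_pos h
    rw [h1]
    have h3 : h.choose = e := hχ h.choose_spec
    rw [h3]
  have hdsome : ∀ x w, hd' x = some w → ∃ e, χ e = x ∧ e.1 = s(x.1, w) := by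
    intro x w hx
    by_cases h : ∃ e, χ e = x
    · obtain ⟨e, he⟩ := h
      refine ⟨e, he, ?_⟩
      have h1 := hdχ e
      rw [he, hx] at h1
      rw [Option.some.inj h1, ← he]
      exact hoth e
    · rw [hhd] at hx
      simp only [dif_neg h] at hx
      exact absurd hx (by simp)
  clear_value hd'
  have hout : ∀ X : Finset (Option (Fin N)), X.Nonempty → none ∉ X →
      k ≤ out tl hd' univ X := by
    intro X hX hr
    set Y : Finset (Fin N) := univ.filter fun v => some v ∈ X with hY
    have hmem : ∀ v : Fin N, some v ∈ X ↔ v ∈ Y := by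
      intro v
      rw [hY, mem_filter]
      exact ⟨fun h => ⟨mem_univ _, h⟩, fun h => h.2⟩
    have hYne : 0 < Y.card := by
      obtain ⟨u, hu⟩ := hX
      rcases u with _ | v
      · exact absurd hu hr
      · exact card_pos.2 ⟨v, (hmem v).1 hu⟩
    clear_value Y
    set Q : Finset (Fin N × Fin k) := univ.filter fun x => x.1 ∈ Y ∧ ∃ w ∈ Y, hd' x = some w
      with hQ
    have h1 : Y.card * k ≤ out tl hd' univ X + Q.card := by
      unfold out
      have : Y ×ˢ (univ : Finset (Fin k)) ⊆
          (univ.filter fun a => tl a ∈ X ∧ hd' a ∉ X) ∪ Q := by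
        intro x hx
        rw [mem_product] at hx
        rw [mem_union, mem_filter, hQ, mem_filter]
        by_cases h : hd' x ∈ X
        · refine Or.inr ⟨mem_univ _, hx.1, ?_⟩
          rcases hx' : hd' x with _ | w
          · rw [hx'] at h
            exact absurd h hr
          · rw [hx'] at h
            exact ⟨w, (hmem w).1 h, rfl⟩
        · exact Or.inl ⟨mem_univ _, (hmem _).2 hx.1, h⟩
      have h2 := (card_le_card this).trans (card_union_le _ _)
      rw [card_product, card_univ, Fintype.card_fin] at h2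
      exact h2
    -- the slots that do not leave are edges within `Y`
    set E : Finset (Sym2 (Fin N)) := univ.filter fun e => e ∈ K.edgeSet ∧ ∀ v ∈ e, v ∈ Y with hE
    have h2 : Q.card ≤ E.card := by
      set E' : Finset {e : Sym2 (Fin N) // e ∈ K.edgeSet} :=
        univ.filter fun e => ∀ v ∈ e.1, v ∈ Y with hE'
      have h5 : Q ⊆ E'.image χ := by
        intro x hx
        rw [hQ, mem_filter] at hx
        obtain ⟨-, hx1, w, hw, hxw⟩ := hx
        obtain ⟨e, he1, he2⟩ := hdsome x w hxw
        rw [mem_image]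
        refine ⟨e, ?_, he1⟩
        rw [hE', mem_filter]
        refine ⟨mem_univ _, fun v hv => ?_⟩
        rw [he2, Sym2.mem_iff] at hv
        rcases hv with rfl | rfl
        · exact hx1
        · exact hw
      have h6 : E'.map (Function.Embedding.subtype _) ⊆ E := by
        intro e he
        rw [mem_map] at he
        obtain ⟨e', he', rfl⟩ := he
        rw [hE', mem_filter] at he'
        rw [hE, mem_filter]
        exact ⟨mem_univ _, e'.2, he'.2⟩
      have h7 := card_le_card h6
      rw [card_map] at h7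
      exact (card_le_card h5).trans (card_image_le.trans h7)
    have h3 : 2 * E.card ≤ Y.card * d := two_mul_card_le K hK E
      (fun e he => (mem_filter.1 he).2.1) Y (fun e he => (mem_filter.1 he).2.2)
    have h4 : E.card ≤ Y.card.choose 2 := by
      rw [← Sym2.card_image_offDiag]
      refine card_le_card fun e he => ?_
      rw [hE, mem_filter] at he
      obtain ⟨-, he1, he2⟩ := he
      induction e using Sym2.ind with
      | _ a b =>
        rw [mem_image]
        exact ⟨(a, b), mem_offDiag.2 ⟨he2 a (Sym2.mem_mk_left _ _), he2 b (Sym2.mem_mk_right _ _),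
          (SimpleGraph.mem_edgeSet _).1 he1 |>.ne⟩, rfl⟩
    have h5 : 2 * Y.card.choose 2 ≤ Y.card * (Y.card - 1) := by
      rw [Nat.choose_two_right]
      exact Nat.mul_div_le _ _
    obtain ⟨y, hy⟩ : ∃ y, Y.card = y + 1 := ⟨Y.card - 1, by omega⟩
    rw [hy] at h1 h3 h4 h5
    rw [Nat.add_sub_cancel] at h5
    rcases Nat.lt_or_ge y (2 * k) with h | h
    · have h6 : y * (y + 1) ≤ y * (2 * k) := Nat.mul_le_mul_left _ (by omega)
      nlinarith
    · nlinarith
  obtain ⟨F, -, hF2, hF3⟩ := edmonds tl hd' none k univ hout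
  -- counting
  have hFN : ∀ i, N ≤ (F i).card := by
    intro i
    have : ∀ v : Fin N, ∃ a ∈ F i, a.1 = v := by
      intro v
      have h1 := hF3 i (some v)
      unfold Reach at h1
      rcases Relation.ReflTransGen.cases_head h1 with h | ⟨w, ⟨a, ha, h2, -⟩, -⟩
      · exact absurd h (by simp)
      · exact ⟨a, ha, Option.some.inj h2⟩
    choose a ha1 ha2 using this
    have h2 := card_le_card_of_injOn (s := (univ : Finset (Fin N))) (t := F i) a
      (fun v _ => ha1 v) (fun v _ w _ h => by rw [← ha2 v, ← ha2 w, h])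
    rwa [card_univ, Fintype.card_fin] at h2
  have hsum : ∑ i, (F i).card = (univ.biUnion F).card :=
    (card_biUnion (fun i _ j _ hij => hF2 i j hij)).symm
  have hsum2 : (univ.biUnion F).card ≤ N * k := by
    refine (card_le_univ _).trans ?_
    rw [Fintype.card_prod, Fintype.card_fin, Fintype.card_fin]
  have hcov : univ.biUnion F = univ := by
    rw [← card_eq_iff_eq_univ, Fintype.card_prod, Fintype.card_fin, Fintype.card_fin]
    refine le_antisymm hsum2 ?_
    rw [← hsum]
    calc N * k = ∑ _i : Fin k, N := by rw [sum_const, card_univ, Fintype.card_fin, smul_eq_mul, mul_comm]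
      _ ≤ _ := sum_le_sum fun i _ => hFN i
  have hFN' : ∀ i, (F i).card = N := by
    have h1 : ∑ i, (F i).card = ∑ _i : Fin k, N := by
      rw [hsum, hcov, card_univ, Fintype.card_prod, Fintype.card_fin, Fintype.card_fin, sum_const,
        card_univ, Fintype.card_fin, smul_eq_mul, mul_comm]
    intro i
    exact ((sum_eq_sum_iff_of_le fun i _ => hFN i).1 h1.symm i (mem_univ _)).symm
  set H : Fin k → SimpleGraph (Option (Fin N)) := fun i =>
    SimpleGraph.fromEdgeSet {e | ∃ a ∈ F i, e = s(tl a, hd' a)} with hH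
  have hconn : ∀ i, (H i).Connected := by
    intro i
    have hr : ∀ v, (H i).Reachable v none := by
      intro v
      have := hF3 i v
      unfold Reach at this
      induction this using Relation.ReflTransGen.head_induction_on with
      | refl => exact SimpleGraph.Reachable.refl _
      | @head x y h1 _ ih =>
        obtain ⟨a, ha, h2, h3⟩ := h1
        by_cases hxy : x = y
        · rw [hxy]
          exact ih
        · refine SimpleGraph.Reachable.trans (SimpleGraph.Adj.reachable ?_) ih
          rw [hH, SimpleGraph.fromEdgeSet_adj]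
          refine ⟨⟨a, ha, ?_⟩, hxy⟩
          rw [h2, h3]
    exact ⟨fun u v => (hr u).trans (hr v).symm⟩
  have htree : ∀ i, (H i).IsTree := by
    intro i
    rw [SimpleGraph.isTree_iff_connected_and_card]
    refine ⟨hconn i, ?_⟩
    have h1 := (hconn i).card_vert_le_card_edgeSet_add_one
    have h2 : Nat.card (Option (Fin N)) = N + 1 := by
      rw [Nat.card_eq_fintype_card, Fintype.card_option, Fintype.card_fin]
    have h3 : Nat.card (H i).edgeSet ≤ N := by
      rw [Nat.card_coe_set_eq]
      have h4 : (H i).edgeSet ⊆ ((F i).image fun a => s(tl a, hd' a) : Finset _) := by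
        intro e he
        rw [hH, SimpleGraph.edgeSet_fromEdgeSet] at he
        obtain ⟨a, ha, rfl⟩ := he.1
        rw [mem_coe]
        exact mem_image_of_mem _ ha
      refine (Set.ncard_le_ncard h4 (finite_toSet _)).trans ?_
      rw [Set.ncard_coe_finset]
      exact card_image_le.trans (hFN' i).le
    omega
  refine ⟨fun i => (H i).comap some ⊓ K, fun i => ?_, fun u v => ⟨fun huv => ?_, ?_⟩⟩
  · have h1 : ((H i).comap (some : Fin N → Option (Fin N))).IsAcyclic :=
      SimpleGraph.IsAcyclic.comap ⟨some, fun {a b} h => h⟩ (Option.some_injective _)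
        (htree i).isAcyclic
    exact h1.anti inf_le_left
  · set e : {e : Sym2 (Fin N) // e ∈ K.edgeSet} := ⟨s(u, v), huv⟩ with he
    have h1 : χ e ∈ univ.biUnion F := by rw [hcov]; exact mem_univ _
    rw [mem_biUnion] at h1
    obtain ⟨i, -, hi⟩ := h1
    have h2 := hdχ e
    have h3 : s(some u, some v) = s(tl (χ e), hd' (χ e)) := by
      have : (Sym2.map some s(u, v) : Sym2 (Option (Fin N))) =
          Sym2.map some s((χ e).1, oth e) := by
        rw [← hoth e]
      rw [Sym2.map_mk, Sym2.map_mk] at this
      rw [h2]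
      exact this
    refine ⟨i, ?_, huv⟩
    show (H i).Adj (some u) (some v)
    rw [hH, SimpleGraph.fromEdgeSet_adj]
    exact ⟨⟨_, hi, h3⟩, fun h => huv.ne (Option.some.inj h)⟩
  · rintro ⟨i, h⟩
    exact h.2

end Pool.Agent.R483.TP
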