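import Pool.Agent.R483.TP.Arb

/-!
# Packing spanning trees in the cone over a regular graph
-/

set_option autoImplicit false

namespace Pool.Agent.R483.TP

open Finset

/-- each vertex chooses `j` of its edges, no edge is chosen twice -/
lemma exists_choice {n d j : ℕ} (K : SimpleGraph (Fin n)) [DecidableRel K.Adj]
    (hK : ∀ v, K.degree v = d) (hj : 2 * j ≤ d) :
    ∃ ψ : Fin n × Fin j → Fin n, (∀ x, K.Adj x.1 (ψ x)) ∧
      Function.Injective fun x => s(x.1, ψ x) := by
  classical
  have hall : ∀ s : Finset (Fin n × Fin j),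
      s.card ≤ (s.biUnion fun x => K.incidenceFinset x.1).card := by
    intro s
    set X : Finset (Fin n) := s.image Prod.fst with hX
    have h1 : s.card ≤ X.card * j := by
      have : s ⊆ X ×ˢ (univ : Finset (Fin j)) := by
        intro x hx
        rw [mem_product]
        exact ⟨mem_image_of_mem _ hx, mem_univ _⟩
      refine (card_le_card this).trans ?_
      rw [card_product, card_univ, Fintype.card_fin]
    set B : Finset (Sym2 (Fin n)) := s.biUnion fun x => K.incidenceFinset x.1 with hB
    have h2 : X.card * d ≤ 2 * B.card := by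
      have h3 := sum_card_bipartiteAbove_eq_sum_card_bipartiteBelow (s := X) (t := B)
        (fun (v : Fin n) (e : Sym2 (Fin n)) => e ∈ K.incidenceFinset v)
      have h4 : ∀ v ∈ X, (B.bipartiteAbove
          (fun (v : Fin n) (e : Sym2 (Fin n)) => e ∈ K.incidenceFinset v) v).card = d := by
        intro v hv
        rw [← hK v, ← K.card_incidenceFinset_eq_degree v]
        congr 1
        ext e
        rw [mem_bipartiteAbove]
        refine ⟨fun h => h.2, fun h => ⟨?_, h⟩⟩
        rw [hX, mem_image] at hv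
        obtain ⟨x, hx, rfl⟩ := hv
        exact mem_biUnion.2 ⟨x, hx, h⟩
      have h5 : ∀ e ∈ B, (X.bipartiteBelow
          (fun (v : Fin n) (e : Sym2 (Fin n)) => e ∈ K.incidenceFinset v) e).card ≤ 2 := by
        intro e _
        induction e using Sym2.ind with
        | _ a b =>
          refine (card_le_card (t := {a, b}) fun v hv => ?_).trans card_le_two
          rw [mem_bipartiteBelow, SimpleGraph.mem_incidenceFinset,
            SimpleGraph.mk'_mem_incidenceSet_iff] at hv
          simp only [mem_insert, mem_singleton]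
          exact hv.2.2
      rw [sum_congr rfl h4, sum_const, smul_eq_mul] at h3
      rw [h3]
      refine (sum_le_sum h5).trans ?_
      rw [sum_const, smul_eq_mul, mul_comm]
    have h6 : X.card * (2 * j) ≤ X.card * d := Nat.mul_le_mul_left _ hj
    have h7 : X.card * (2 * j) = 2 * (X.card * j) := by ring
    omega
  obtain ⟨f, hf, hfx⟩ := (all_card_le_biUnion_card_iff_exists_injective _).1 hall
  have h1 : ∀ x, ∃ w, f x = s(x.1, w) ∧ K.Adj x.1 w := by
    intro x
    have := hfx x
    rw [SimpleGraph.mem_incidenceFinset] at this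
    obtain ⟨h1, h2⟩ := this
    obtain ⟨w, hw⟩ := Sym2.mem_iff_exists.1 h2
    refine ⟨w, hw, ?_⟩
    rw [hw] at h1
    exact h1
  choose ψ hψ using h1
  refine ⟨ψ, fun x => (hψ x).2, fun x y hxy => hf ?_⟩
  rw [(hψ x).1, (hψ y).1]
  exact hxy

/-- arcs: every vertex to the apex, every vertex `v` to `ψ (v, i)` -/
def ptl {n j : ℕ} : Fin n ⊕ (Fin n × Fin j) → Fin (n + 1)
  | .inl v => v.castSucc
  | .inr x => x.1.castSucc

/-- heads of the arcs -/
def phd {n j : ℕ} (ψ : Fin n × Fin j → Fin n) : Fin n ⊕ (Fin n × Fin j) → Fin (n + 1)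
  | .inl _ => Fin.last n
  | .inr x => (ψ x).castSucc

lemma pair_injective {n j : ℕ} {ψ : Fin n × Fin j → Fin n}
    (hψ : Function.Injective fun x => s(x.1, ψ x)) :
    Function.Injective fun a : Fin n ⊕ (Fin n × Fin j) => s(ptl a, phd ψ a) := by
  intro a b hab
  have hlast : ∀ v : Fin n, v.castSucc ≠ Fin.last n := fun v => (Fin.castSucc_lt_last v).ne
  rcases a with v | x <;> rcases b with w | y <;>
    simp only [ptl, phd, Sym2.eq_iff] at hab
  · rcases hab with h | h
    · rw [Fin.castSucc_injective n h.1]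
    · exact absurd h.1 (hlast v)
  · rcases hab with h | h
    · exact absurd h.2.symm (hlast _)
    · exact absurd h.2.symm (hlast _)
  · rcases hab with h | h
    · exact absurd h.2 (hlast _)
    · exact absurd h.1 (hlast _)
  · congr 1
    apply hψ
    simp only [Sym2.eq_iff]
    rcases hab with h | h
    · exact Or.inl ⟨Fin.castSucc_injective n h.1, Fin.castSucc_injective n h.2⟩
    · exact Or.inr ⟨Fin.castSucc_injective n h.1, Fin.castSucc_injective n h.2⟩

lemma out_pack {n j : ℕ} {K : SimpleGraph (Fin n)} {ψ : Fin n × Fin j → Fin n}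
    (hadj : ∀ x, K.Adj x.1 (ψ x)) (hψ : Function.Injective fun x => s(x.1, ψ x))
    (X : Finset (Fin (n + 1))) (hX : X.Nonempty) (hr : Fin.last n ∉ X) :
    j + 1 ≤ out (A := Fin n ⊕ (Fin n × Fin j)) ptl (phd ψ) univ X := by
  classical
  set Y : Finset (Fin n) := univ.filter fun v => v.castSucc ∈ X with hY
  have hYne : 0 < Y.card := by
    obtain ⟨u, hu⟩ := hX
    rcases Fin.eq_castSucc_or_eq_last u with ⟨v, rfl⟩ | h
    · exact card_pos.2 ⟨v, by rw [hY, mem_filter]; exact ⟨mem_univ _, hu⟩⟩
    · rw [h] at hu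
      exact absurd hu hr
  have hmem : ∀ v : Fin n, v.castSucc ∈ X ↔ v ∈ Y := by
    intro v
    rw [hY, mem_filter]
    exact ⟨fun h => ⟨mem_univ _, h⟩, fun h => h.2⟩
  -- the arcs of the second kind that leave, and those that do not
  set P : Finset (Fin n × Fin j) := univ.filter fun x => x.1 ∈ Y ∧ ψ x ∉ Y with hP
  set Q : Finset (Fin n × Fin j) := univ.filter fun x => x.1 ∈ Y ∧ ψ x ∈ Y with hQ
  have hout : Y.card + P.card ≤ out (A := Fin n ⊕ (Fin n × Fin j)) ptl (phd ψ) univ X := by
    unfold out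
    rw [← card_disjSum]
    refine card_le_card fun a ha => ?_
    rw [mem_filter]
    refine ⟨mem_univ _, ?_⟩
    rcases a with v | x
    · rw [inl_mem_disjSum] at ha
      exact ⟨(hmem v).2 ha, hr⟩
    · rw [inr_mem_disjSum, hP, mem_filter] at ha
      exact ⟨(hmem _).2 ha.2.1, fun h => ha.2.2 ((hmem _).1 h)⟩
  have hPQ : P.card + Q.card = Y.card * j := by
    have h1 : P ∪ Q = Y ×ˢ univ := by
      clear_value Y
      ext x
      rw [mem_union, hP, hQ, mem_filter, mem_filter, mem_product]
      constructor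
      · rintro (h | h)
        · exact ⟨h.2.1, mem_univ _⟩
        · exact ⟨h.2.1, mem_univ _⟩
      · intro h
        by_cases h2 : ψ x ∈ Y
        · exact Or.inr ⟨mem_univ _, h.1, h2⟩
        · exact Or.inl ⟨mem_univ _, h.1, h2⟩
    have h2 : Disjoint P Q := by
      rw [Finset.disjoint_left]
      intro x hx hx'
      rw [hP, mem_filter] at hx
      rw [hQ, mem_filter] at hx'
      exact hx.2.2 hx'.2.2
    rw [← card_union_of_disjoint h2, h1, card_product, card_univ, Fintype.card_fin]
  have hQle : Q.card ≤ Y.card.choose 2 := by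
    rw [← Sym2.card_image_offDiag]
    refine card_le_card_of_injOn (fun x => s(x.1, ψ x)) (fun x hx => ?_) (hψ.injOn)
    rw [mem_coe, hQ, mem_filter] at hx
    rw [mem_coe, mem_image]
    refine ⟨(x.1, ψ x), mem_offDiag.2 ⟨hx.2.1, hx.2.2, (hadj x).ne⟩, rfl⟩
  refine le_trans ?_ hout
  rcases Nat.lt_or_ge j Y.card with h | h
  · omega
  · have h1 : 2 * Y.card.choose 2 ≤ Y.card * (Y.card - 1) := by
      rw [Nat.choose_two_right]
      exact Nat.mul_div_le _ _
    obtain ⟨y, hy⟩ : ∃ y, Y.card = y + 1 := ⟨Y.card - 1, by omega⟩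
    rw [hy] at h1 hPQ hQle h ⊢
    rw [Nat.add_sub_cancel] at h1
    have h2 : y * y ≤ y * j := Nat.mul_le_mul_left _ (by omega)
    nlinarith

/-- **Packing in cones.** If `K` is regular of degree at least `2 (k - 1)`, then the cone over `K`
contains `k` edge-disjoint connected spanning graphs. -/
lemma pack_aux {n d j : ℕ} (K : SimpleGraph (Fin n)) [DecidableRel K.Adj]
    (hK : ∀ v, K.degree v = d) (hj : 2 * j ≤ d) (G : SimpleGraph (Fin (n + 1)))
    (hG1 : ∀ v : Fin n, G.Adj v.castSucc (Fin.last n))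
    (hG2 : ∀ v w : Fin n, K.Adj v w → G.Adj v.castSucc w.castSucc) :
    ∃ T : Fin (j + 1) → SimpleGraph (Fin (n + 1)), (∀ i, (T i).IsTree) ∧ (∀ i, T i ≤ G) ∧
      ∀ i i', i ≠ i' → ∀ u v, (T i).Adj u v → ¬ (T i').Adj u v := by
  classical
  obtain ⟨ψ, hadj, hψ⟩ := exists_choice K hK hj
  obtain ⟨F, -, hF2, hF3⟩ := edmonds (A := Fin n ⊕ (Fin n × Fin j)) ptl (phd ψ) (Fin.last n) (j + 1)
    univ (fun X hX hr => out_pack hadj hψ X hX hr)
  set H : Fin (j + 1) → SimpleGraph (Fin (n + 1)) := fun i =>
    SimpleGraph.fromEdgeSet {e | ∃ a ∈ F i, e = s(ptl a, phd ψ a)} with hH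
  have hpinj := pair_injective hψ
  have hne : ∀ a : Fin n ⊕ (Fin n × Fin j), ptl a ≠ phd ψ a := by
    intro a
    rcases a with v | x
    · exact (Fin.castSucc_lt_last v).ne
    · intro h
      exact (hadj x).ne (Fin.castSucc_injective n h)
  have hconn : ∀ i, (H i).Connected := by
    intro i
    have hr : ∀ v, (H i).Reachable v (Fin.last n) := by
      intro v
      have := hF3 i v
      unfold Reach at this
      induction this using Relation.ReflTransGen.head_induction_on with
      | refl => exact SimpleGraph.Reachable.refl _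
      | head h1 _ ih =>
        obtain ⟨a, ha, h2, h3⟩ := h1
        refine SimpleGraph.Reachable.trans (SimpleGraph.Adj.reachable ?_) ih
        rw [hH, SimpleGraph.fromEdgeSet_adj]
        rw [← h2, ← h3]
        exact ⟨⟨a, ha, rfl⟩, hne a⟩
    exact ⟨fun u v => (hr u).trans (hr v).symm⟩
  choose T hT1 hT2 using fun i => (hconn i).exists_isTree_le
  refine ⟨T, hT2, fun i => (hT1 i).trans ?_, ?_⟩
  · intro u v huv
    rw [hH, SimpleGraph.fromEdgeSet_adj] at huv
    obtain ⟨⟨a, -, ha⟩, -⟩ := huv
    have hGa : G.Adj (ptl a) (phd ψ a) := by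
      rcases a with x | x
      · exact hG1 x
      · exact hG2 _ _ (hadj x)
    rw [← SimpleGraph.mem_edgeSet, ha]
    exact hGa
  · intro i i' hii u v h1 h2
    have h3 := hT1 i h1
    have h4 := hT1 i' h2
    rw [hH, SimpleGraph.fromEdgeSet_adj] at h3 h4
    obtain ⟨⟨a, ha, ha'⟩, -⟩ := h3
    obtain ⟨⟨b, hb, hb'⟩, -⟩ := h4
    have : a = b := hpinj (ha'.symm.trans hb')
    rw [← this] at hb
    exact Finset.disjoint_left.1 (hF2 i i' hii) ha hb

end Pool.Agent.R483.TP
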