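import Mathlib

/-!
# The strength of the cone over a regular graph
-/

set_option autoImplicit false

namespace Pool.Agent.R483.TP

open Finset

/-- pairs of adjacent vertices in different parts -/
lemma two_mul_cross {V : Type*} [Fintype V] [DecidableEq V] (G : SimpleGraph V) [DecidableRel G.Adj]
    (f : V → V) :
    (univ.filter fun x : V × V => G.Adj x.1 x.2 ∧ f x.1 ≠ f x.2).card ≤
      2 * (univ.filter fun e : Sym2 V => e ∈ G.edgeSet ∧ ¬ (e.map f).IsDiag).card := by
  have h1 := card_le_mul_card_image (f := fun x : V × V => s(x.1, x.2))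
    (univ.filter fun x : V × V => G.Adj x.1 x.2 ∧ f x.1 ≠ f x.2) 2 (by
      intro e _
      induction e using Sym2.ind with
      | _ a b =>
        refine (card_le_card (t := {(a, b), (b, a)}) fun x hx => ?_).trans card_le_two
        rw [mem_filter, Sym2.eq_iff] at hx
        simp only [mem_insert, mem_singleton]
        rcases hx.2 with h | h
        · exact Or.inl (Prod.ext h.1 h.2)
        · exact Or.inr (Prod.ext h.1 h.2))
  refine h1.trans (Nat.mul_le_mul_left _ (card_le_card fun e he => ?_))
  rw [mem_image] at he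
  obtain ⟨x, hx, rfl⟩ := he
  rw [mem_filter] at hx ⊢
  refine ⟨mem_univ _, hx.2.1, ?_⟩
  rw [Sym2.map_mk, Sym2.mk_isDiag_iff]
  exact hx.2.2

lemma deg_out {n d : ℕ} (K : SimpleGraph (Fin n)) [DecidableRel K.Adj]
    (hK : ∀ v, K.degree v = d) (X : Finset (Fin n)) :
    X.card * d ≤ (univ.filter fun p : Fin n × Fin n => p.1 ∈ X ∧ K.Adj p.1 p.2 ∧ p.2 ∉ X).card +
      (X.card * X.card - X.card) := by
  have h1 : X.card * d = (univ.filter fun p : Fin n × Fin n => p.1 ∈ X ∧ K.Adj p.1 p.2).card := by
    have : (univ.filter fun p : Fin n × Fin n => p.1 ∈ X ∧ K.Adj p.1 p.2) =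
        X.biUnion fun v => (K.neighborFinset v).map ⟨fun w => (v, w), fun a b h => by
          exact (Prod.ext_iff.1 h).2⟩ := by
      ext p
      rw [mem_filter, mem_biUnion]
      constructor
      · rintro ⟨-, h1, h2⟩
        refine ⟨p.1, h1, ?_⟩
        rw [mem_map]
        exact ⟨p.2, (K.mem_neighborFinset _ _).2 h2, rfl⟩
      · rintro ⟨v, hv, h⟩
        rw [mem_map] at h
        obtain ⟨w, hw, rfl⟩ := h
        exact ⟨mem_univ _, hv, (K.mem_neighborFinset _ _).1 hw⟩
    rw [this, card_biUnion]
    · rw [sum_congr rfl (g := fun _ => d) (fun v _ => by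
        rw [card_map, K.card_neighborFinset_eq_degree, hK]), sum_const, smul_eq_mul]
    · intro v _ w _ hvw
      rw [Function.onFun, Finset.disjoint_left]
      intro p hp hp'
      rw [mem_map] at hp hp'
      obtain ⟨a, -, rfl⟩ := hp
      obtain ⟨b, -, hb⟩ := hp'
      exact hvw (Prod.ext_iff.1 hb).1.symm
  rw [h1, ← offDiag_card, ← card_filter_add_card_filter_not (fun p : Fin n × Fin n => p.2 ∉ X)]
  refine Nat.add_le_add (card_le_card fun p hp => ?_) (card_le_card fun p hp => ?_)
  · rw [mem_filter, mem_filter] at hp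
    rw [mem_filter]
    exact ⟨mem_univ _, hp.1.2.1, hp.1.2.2, hp.2⟩
  · rw [mem_filter, mem_filter, not_not] at hp
    rw [mem_offDiag]
    exact ⟨hp.1.2.1, hp.2, hp.1.2.2.ne⟩

lemma strength_aux {n d : ℕ} (K : SimpleGraph (Fin n)) [DecidableRel K.Adj]
    (hK : ∀ v, K.degree v = d) (G : SimpleGraph (Fin (n + 1))) [DecidableRel G.Adj]
    (hG1 : ∀ v : Fin n, G.Adj v.castSucc (Fin.last n))
    (hG2 : ∀ v w : Fin n, K.Adj v w → G.Adj v.castSucc w.castSucc)
    (f : Fin (n + 1) → Fin (n + 1)) :
    ((univ.image f).card - 1) * (d + 2) ≤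
      2 * (univ.filter fun e : Sym2 (Fin (n + 1)) => e ∈ G.edgeSet ∧ ¬ (e.map f).IsDiag).card := by
  refine le_trans ?_ (two_mul_cross G f)
  set D := univ.filter fun x : Fin (n + 1) × Fin (n + 1) => G.Adj x.1 x.2 ∧ f x.1 ≠ f x.2 with hD
  set g : Fin (n + 1) × Fin (n + 1) → Fin (n + 1) := fun x =>
    if x.1 = Fin.last n then f x.2 else f x.1 with hg
  set B := (univ.image f).erase (f (Fin.last n)) with hB
  have hBc : B.card = (univ.image f).card - 1 := by
    rw [hB, card_erase_of_mem (mem_image_of_mem _ (mem_univ _))]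
  have hfib : ∀ b ∈ B, d + 2 ≤ (D.filter fun x => g x = b).card := by
    intro b hb
    rw [hB, mem_erase, mem_image] at hb
    obtain ⟨hb1, u, -, hu⟩ := hb
    set X : Finset (Fin n) := univ.filter fun v => f v.castSucc = b with hX
    have hXmem : ∀ v, v ∈ X ↔ f v.castSucc = b := fun v => by
      rw [hX, mem_filter]
      exact ⟨fun h => h.2, fun h => ⟨mem_univ _, h⟩⟩
    have hXne : 0 < X.card := by
      rcases Fin.eq_castSucc_or_eq_last u with ⟨v, rfl⟩ | h
      · exact card_pos.2 ⟨v, (hXmem v).2 hu⟩
      · rw [h] at hu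
        exact absurd hu.symm hb1
    clear_value X
    have h1 := deg_out K hK X
    set R := univ.filter fun p : Fin n × Fin n => p.1 ∈ X ∧ K.Adj p.1 p.2 ∧ p.2 ∉ X with hR
    have h2 : ((X.disjSum X).disjSum R).card ≤ (D.filter fun x => g x = b).card := by
      refine card_le_card_of_injOn (fun a : (Fin n ⊕ Fin n) ⊕ (Fin n × Fin n) =>
        match a with
        | .inl (.inl v) => (v.castSucc, Fin.last n)
        | .inl (.inr v) => (Fin.last n, v.castSucc)
        | .inr p => (p.1.castSucc, p.2.castSucc)) ?_ ?_
      · have hl : ∀ v : Fin n, v.castSucc ≠ Fin.last n := fun v => (Fin.castSucc_lt_last v).ne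
        rintro ((v | v) | p) ha
        · rw [mem_coe, inl_mem_disjSum, inl_mem_disjSum] at ha
          have hv := (hXmem v).1 ha
          rw [mem_coe, mem_filter, hD, mem_filter]
          refine ⟨⟨mem_univ _, hG1 v, ?_⟩, ?_⟩
          · show f v.castSucc ≠ f (Fin.last n)
            rw [hv]
            exact hb1
          · show (if v.castSucc = Fin.last n then _ else _) = b
            rw [if_neg (hl v)]
            exact hv
        · rw [mem_coe, inl_mem_disjSum, inr_mem_disjSum] at ha
          have hv := (hXmem v).1 ha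
          rw [mem_coe, mem_filter, hD, mem_filter]
          refine ⟨⟨mem_univ _, (hG1 v).symm, ?_⟩, ?_⟩
          · show f (Fin.last n) ≠ f v.castSucc
            rw [hv]
            exact hb1.symm
          · show (if Fin.last n = Fin.last n then _ else _) = b
            rw [if_pos rfl]
            exact hv
        · rw [mem_coe, inr_mem_disjSum, hR, mem_filter] at ha
          obtain ⟨-, h3, h4, h5⟩ := ha
          rw [mem_coe, mem_filter, hD, mem_filter]
          refine ⟨⟨mem_univ _, hG2 _ _ h4, ?_⟩, ?_⟩
          · show f p.1.castSucc ≠ f p.2.castSucc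
            rw [(hXmem _).1 h3]
            exact fun h => h5 ((hXmem _).2 h.symm)
          · show (if p.1.castSucc = Fin.last n then _ else _) = b
            rw [if_neg (hl _)]
            exact (hXmem _).1 h3
      · have hl : ∀ v : Fin n, v.castSucc ≠ Fin.last n := fun v => (Fin.castSucc_lt_last v).ne
        rintro ((v | v) | p) - ((w | w) | q) - hab
        · simp only [Prod.mk.injEq] at hab
          rw [Fin.castSucc_injective n hab.1]
        · simp only [Prod.mk.injEq] at hab
          exact absurd hab.1 (hl v)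
        · simp only [Prod.mk.injEq] at hab
          exact absurd hab.2.symm (hl _)
        · simp only [Prod.mk.injEq] at hab
          exact absurd hab.2 (hl v)
        · simp only [Prod.mk.injEq] at hab
          rw [Fin.castSucc_injective n hab.2]
        · simp only [Prod.mk.injEq] at hab
          exact absurd hab.1.symm (hl _)
        · simp only [Prod.mk.injEq] at hab
          exact absurd hab.2 (hl _)
        · simp only [Prod.mk.injEq] at hab
          exact absurd hab.1 (hl _)
        · simp only [Prod.mk.injEq] at hab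
          rw [Prod.ext (Fin.castSucc_injective n hab.1) (Fin.castSucc_injective n hab.2)]
    rw [card_disjSum, card_disjSum] at h2
    refine le_trans ?_ h2
    obtain ⟨x, hx⟩ : ∃ x, X.card = x + 1 := ⟨X.card - 1, by omega⟩
    rw [hx] at h1 ⊢
    have h3 : (x + 1) * (x + 1) - (x + 1) = x * (x + 1) := by
      rw [Nat.sub_eq_of_eq_add]
      ring
    rw [h3] at h1
    rcases Nat.lt_or_ge (x + x) d with h | h
    · nlinarith
    · omega
  rw [← hBc]
  have h1 : ∑ b ∈ B, (D.filter fun x => g x = b).card ≤ D.card := by
    rw [← card_biUnion]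
    · exact card_le_card fun x hx => by
        rw [mem_biUnion] at hx
        obtain ⟨b, -, hx⟩ := hx
        exact (mem_filter.1 hx).1
    · intro b _ c _ hbc
      rw [Function.onFun, Finset.disjoint_left]
      intro x hx hx'
      rw [mem_filter] at hx hx'
      exact hbc (hx.2.symm.trans hx'.2)
  refine le_trans ?_ h1
  rw [← smul_eq_mul]
  exact card_nsmul_le_sum _ _ _ hfib

end Pool.Agent.R483.TP
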